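import Pool.Agent.TH251.MP.Avg
import Pool.Agent.TH537.EQ.Defs

/-!
# The two-valued averaged form `S_INB` (helper537), with the constant `1`
-/

set_option autoImplicit false

open MeasureTheory Set Filter Topology
open scoped ENNReal Pointwise

namespace Pool.Agent.TH251.MP

open H801NS

noncomputable section

variable {m : ℕ} {K : Set (Fin m → ℝ)}

lemma gauge_neg_set (K : Set (Fin m → ℝ)) (x : Fin m → ℝ) : gauge (-K) x = gauge K (-x) := by
  unfold gauge
  congr 1
  ext r
  simp only [mem_ofPred_eq]
  constructor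
  · rintro ⟨hr, h⟩
    refine ⟨hr, ?_⟩
    rw [smul_set_neg] at h
    exact h
  · rintro ⟨hr, h⟩
    refine ⟨hr, ?_⟩
    rw [smul_set_neg]
    exact h

lemma nb_HH (hK : NB K) : NB (Pool.Agent.TH537.EQ.HH K) := by
  have hc := cont_gauge hK
  have hcn : Continuous fun x : Fin m → ℝ => gauge K (-x) := hc.comp continuous_neg
  have hcl : IsClosed (Pool.Agent.TH537.EQ.HH K) := isClosed_le (hc.add hcn) continuous_const
  refine ⟨?_, ?_, ?_⟩
  · refine hK.comp.of_isClosed_subset hcl fun x hx => ?_
    have h1 : gauge K x ≤ 1 := by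
      have h2 : gauge K x + gauge K (-x) ≤ 1 := hx
      have h3 := gauge_nonneg (s := K) (-x)
      linarith
    have := (gauge_le_one_iff_mem_closure hK.conv (nhds_of hK)).1 h1
    rwa [hK.comp.isClosed.closure_eq] at this
  · intro x hx y hy a b ha hb hab
    have hx' : gauge K x + gauge K (-x) ≤ 1 := hx
    have hy' : gauge K y + gauge K (-y) ≤ 1 := hy
    have h1 := gauge_add hK (a • x) (b • y)
    have h2 := gauge_add hK (a • (-x)) (b • (-y))
    rw [gauge_smul_of_nonneg ha, gauge_smul_of_nonneg hb] at h1 h2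
    have e : -(a • x + b • y) = a • (-x) + b • (-y) := by
      rw [neg_add, smul_neg, smul_neg]
    show gauge K (a • x + b • y) + gauge K (-(a • x + b • y)) ≤ 1
    rw [e]
    simp only [smul_eq_mul] at h1 h2
    nlinarith [mul_le_mul_of_nonneg_left hx' ha, mul_le_mul_of_nonneg_left hy' hb]
  · rw [mem_interior_iff_mem_nhds]
    have h1 : Tendsto (fun x : Fin m → ℝ => gauge K x + gauge K (-x)) (𝓝 0) (𝓝 0) := by
      have h2 : Continuous (fun x : Fin m → ℝ => gauge K x + gauge K (-x)) := hc.add hcn
      have := h2.tendsto (0 : Fin m → ℝ)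
      simpa using this
    filter_upwards [h1.eventually (ge_mem_nhds (show (0:ℝ) < 1 by norm_num))] with x hx
    exact hx

lemma WW_ge_HH (hK : NB K) : VV (Pool.Agent.TH537.EQ.HH K) ≤ WW (-K) K := by
  have hH := nb_HH hK
  have h1 : ENNReal.ofReal (VV (Pool.Agent.TH537.EQ.HH K)) ≤
      ∫⁻ x, ee (gauge (-K) x) * ee (gauge K x) := by
    rw [← gau hH]
    refine lintegral_mono fun x => ?_
    simp only
    rw [← ee_add, gauge_neg_set]
    refine ee_anti ?_
    -- `gauge K (-x) + gauge K x ≤ gauge (HH K) x`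
    refine le_of_forall_pos_le_add fun δ hδ => ?_
    obtain ⟨r, hr0, hr1, y, hy, rfl⟩ := exists_lt_of_gauge_lt
      (absorbent_nhds_zero (nhds_of hH)) (lt_add_of_pos_right (gauge (Pool.Agent.TH537.EQ.HH K) x) hδ)
    have hy' : gauge K y + gauge K (-y) ≤ 1 := hy
    have e1 : gauge K ((fun x => r • x) y) = r * gauge K y := by
      simp only
      rw [gauge_smul_of_nonneg hr0.le, smul_eq_mul]
    have e2 : gauge K (-((fun x => r • x) y)) = r * gauge K (-y) := by
      simp only
      rw [← smul_neg, gauge_smul_of_nonneg hr0.le, smul_eq_mul]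
    rw [e1, e2]
    nlinarith [mul_le_mul_of_nonneg_left hy' hr0.le]
  rw [← ofReal_WW hK] at h1
  exact (ENNReal.ofReal_le_ofReal_iff ENNReal.toReal_nonneg).1 h1

lemma int_low {L x y : ℝ} (hx : 0 < x) (hxy : x ≤ y) (hy : y < 1) {A B : Set (Fin m → ℝ)}
    (hA : NB A) (hB : NB B) (h : ∀ z ∈ Ioo x y, L - m * Real.log z ≤ FF A B z) :
    (y - x) * L - m * (y * Real.log y - x * Real.log x - y + x) ≤ ∫ z in x..y, FF A B z := by
  have h0 : (0:ℝ) ∉ uIcc x y := by
    rw [uIcc_of_le hxy]
    exact fun h => absurd h.1 (not_le.2 hx)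
  have hI : IntervalIntegrable (fun z => L - m * Real.log z) volume x y :=
    intervalIntegrable_const.sub ((intervalIntegral.intervalIntegrable_log h0).const_mul _)
  have h1 := intervalIntegral.integral_mono_on_of_le_Ioo hxy hI (FF_int hA hB hx hxy hy) h
  refine le_trans (le_of_eq ?_) h1
  rw [intervalIntegral.integral_sub intervalIntegrable_const
    ((intervalIntegral.intervalIntegrable_log h0).const_mul _), intervalIntegral.integral_const,
    intervalIntegral.integral_const_mul, integral_log, smul_eq_mul]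

theorem t_INB (hST : S_STEP) (hPL : S_PLN) : Pool.Agent.TH537.EQ.S_INB (fun _ => 1) := by
  intro m K hK0 a b t ht0 ht1 ha hab h1 h2
  have hK : NB K := ⟨hK0.comp, hK0.conv, hK0.zero⟩
  have hK' := nb_neg hK
  have hb : 0 < b := ha.trans_le hab
  have hF : (0 : ℝ) < m.factorial := by positivity
  have hVK := VV_pos hK
  have hVn : VV (-K) = VV K := by
    unfold VV
    rw [vol_neg]
  -- lower bounds for `F`
  have hlow : ∀ (s : ℝ), 0 < s → ∀ z ∈ Ioo (0:ℝ) 1,
      s ≤ volume.real (Pool.Agent.TH537.EQ.HU K (1 - z)) →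
      Real.log (m.factorial * s) - m * Real.log z ≤ FF (-K) K z := by
    intro s hs z hz hsv
    have hc := inv_sub_pos hz.1 hz.2
    have e1 := hul_eq K hc
    have e2 : (z⁻¹ - 1) / (1 + (z⁻¹ - 1)) = 1 - z := by
      have := hz.1.ne'
      field_simp
      ring
    have e3 : (1 + (z⁻¹ - 1))⁻¹ = z := by rw [add_sub_cancel, inv_inv]
    rw [e2, e3] at e1
    unfold Pool.Agent.TH537.EQ.HU at hsv
    rw [e1, vol_smul _ hz.1] at hsv
    unfold FF VV
    have hv := vol_pos (hul_nb hK' hK (z⁻¹ - 1))
    have h3 : m.factorial * s ≤ z ^ m * (m.factorial * volume.real (hul (-K) K (z⁻¹ - 1))) := by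
      nlinarith [mul_le_mul_of_nonneg_left hsv hF.le]
    have hz0 : 0 < z := hz.1
    have h4 := Real.log_le_log (by positivity) h3
    rw [Real.log_mul (pow_pos hz0 m).ne' (by positivity), Real.log_pow] at h4
    linarith
  set La := Real.log (m.factorial * a) with hLa
  set Lb := Real.log (m.factorial * b) with hLb
  have key : ∀ s : ℝ, 0 < s → s < t → s < 1 - t → Real.log (WW (-K) K) + ((1 - t - s) * La +
      (t - s) * Lb) - m * ((1 - s) * Real.log (1 - s) - s * Real.log s - (1 - s) + s) ≤
      (1 - s) * Real.log (VV K) + m * (s * Real.log s) + (1 - s) * Real.log (VV K) := by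
    intro s hs0 hst hs1
    have h3 := pair_int hST hPL hK' hK hs0 (by linarith : s < 1 - s) (by linarith)
    rw [← intervalIntegral.integral_add_adjacent_intervals
      (FF_int hK' hK hs0 (by linarith : s ≤ 1 - t) (by linarith))
      (FF_int hK' hK (by linarith : 0 < 1 - t) (by linarith : 1 - t ≤ 1 - s) (by linarith))] at h3
    have h4 := int_low (L := La) hs0 (by linarith : s ≤ 1 - t) (by linarith) hK' hK (fun z hz =>
      hlow a ha z ⟨by linarith [hz.1], by linarith [hz.2]⟩
        (h1 (1 - z) (by linarith [hz.2]) (by linarith [hz.1])))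
    have h5 := int_low (L := Lb) (by linarith : 0 < 1 - t) (by linarith : 1 - t ≤ 1 - s)
      (by linarith) hK' hK (fun z hz => hlow b hb z ⟨by linarith [hz.1], by linarith [hz.2]⟩
            (h2 (1 - z) (by linarith [hz.2]) (by linarith [hz.1])))
    have h6 : (1 - s) * (m * Real.log (1 - s)) ≤ 0 := by
      have : Real.log (1 - s) ≤ 0 := Real.log_nonpos (by linarith) (by linarith)
      exact mul_nonpos_of_nonneg_of_nonpos (by linarith)
        (mul_nonpos_of_nonneg_of_nonpos (by positivity) this)
    rw [hVn, mul_add] at h3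
    linarith
  -- the limit `s → 0`
  have hc1 : Continuous fun s : ℝ => Real.log (WW (-K) K) + ((1 - t - s) * La +
      (t - s) * Lb) - m * ((1 - s) * Real.log (1 - s) - s * Real.log s - (1 - s) + s) := by
    have h3 : Continuous fun s : ℝ => (1 - s) * Real.log (1 - s) :=
      Real.continuous_mul_log.comp (continuous_const.sub continuous_id)
    have h4 := Real.continuous_mul_log
    fun_prop
  have hc2 : Continuous fun s : ℝ =>
      (1 - s) * Real.log (VV K) + m * (s * Real.log s) + (1 - s) * Real.log (VV K) := by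
    have h4 := Real.continuous_mul_log
    fun_prop
  have hfin := le_of_tendsto_of_tendsto (b := 𝓝[>] (0:ℝ))
    ((hc1.tendsto 0).mono_left nhdsWithin_le_nhds) ((hc2.tendsto 0).mono_left nhdsWithin_le_nhds) (by
      filter_upwards [Ioo_mem_nhdsGT (lt_min ht0 (by linarith : 0 < 1 - t))] with s hs
      exact key s hs.1 (hs.2.trans_le (min_le_left _ _)) (hs.2.trans_le (min_le_right _ _)))
  simp only [sub_zero, one_mul, Real.log_one, zero_mul, mul_zero, add_zero, zero_sub] at hfin
  have hWH := WW_ge_HH hK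
  have hHH := VV_pos (nb_HH hK)
  have h7 := Real.log_le_log hHH hWH
  have h8 : Real.log (VV (Pool.Agent.TH537.EQ.HH K) * ((m.factorial * a) ^ (1 - t) *
      (m.factorial * b) ^ t)) ≤ Real.log (Real.exp (-m) * VV K ^ 2) := by
    rw [Real.log_mul hHH.ne' (by positivity), Real.log_mul (by positivity) (by positivity),
      Real.log_rpow (by positivity), Real.log_rpow (by positivity),
      Real.log_mul (Real.exp_pos _).ne' (by positivity), Real.log_exp, Real.log_pow]
    push_cast
    linarith
  have h9 := (Real.log_le_log_iff (by positivity) (by positivity)).1 h8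
  have e1 : ((m.factorial : ℝ) * a) ^ (1 - t) * (m.factorial * b) ^ t =
      m.factorial * (a ^ (1 - t) * b ^ t) := by
    rw [Real.mul_rpow hF.le ha.le, Real.mul_rpow hF.le hb.le]
    have : (m.factorial : ℝ) ^ (1 - t) * (m.factorial : ℝ) ^ t = m.factorial := by
      rw [← Real.rpow_add hF, sub_add_cancel, Real.rpow_one]
    calc (m.factorial : ℝ) ^ (1 - t) * a ^ (1 - t) * ((m.factorial : ℝ) ^ t * b ^ t) =
        ((m.factorial : ℝ) ^ (1 - t) * (m.factorial : ℝ) ^ t) * (a ^ (1 - t) * b ^ t) := by ring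
      _ = _ := by rw [this]
  rw [e1] at h9
  unfold VV at h9
  have h10 : (m.factorial : ℝ) ^ 2 * (volume.real (Pool.Agent.TH537.EQ.HH K) *
      (a ^ (1 - t) * b ^ t)) ≤ (m.factorial : ℝ) ^ 2 * (Real.exp (-m) * volume.real K ^ 2) := by
    nlinarith [h9]
  have h11 := le_of_mul_le_mul_left h10 (by positivity)
  simpa using h11

end

end Pool.Agent.TH251.MP
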