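import Pool.Agent.H801R3.NS.Defs

/-!
# Helper807's inequality (PAIR): statements of the steps

`H801NS.NB` is a convex body with the origin in its interior, `H801NS.ee r = exp (-r)`.
-/

set_option autoImplicit false

open MeasureTheory
open scoped ENNReal Pointwise

namespace Pool.Agent.TH251.MP

open H801NS

/-- the property `P(B)`: `β (x + z) ≥ β x * exp (- gauge B z)` -/
def PP {m : ℕ} (B : Set (Fin m → ℝ)) (β : (Fin m → ℝ) → ℝ≥0∞) : Prop :=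
  ∀ x z, β x * ee (gauge B z) ≤ β (x + z)

/-- (STEP) one-variable rearrangement in the direction of a point `v` of `A`, scale `c` -/
def S_STEP : Prop := ∀ (m : ℕ) (A B : Set (Fin m → ℝ)), NB A → NB B →
  ∀ (v : Fin m → ℝ) (c : ℝ), v ∈ A → 0 < c →
  ∀ β : (Fin m → ℝ) → ℝ≥0∞, Measurable β → PP B β →
  ∃ β' : (Fin m → ℝ) → ℝ≥0∞, Measurable β' ∧ PP (convexHull ℝ (B ∪ {c • v})) β' ∧
    ∫⁻ x, β' x ^ (1 + c) ≤ ∫⁻ x, β x ^ (1 + c) ∧
    ∫⁻ x, ee (gauge A x) * β x ≤ ∫⁻ x, ee (gauge A x) * β' x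

/-- (PLN) Prékopa–Leindler -/
def S_PLN : Prop := ∀ (m : ℕ) (w : ℝ), 0 < w → w < 1 → ∀ f g h : (Fin m → ℝ) → ℝ≥0∞,
  Measurable f → Measurable g → Measurable h →
  (∀ x y, f x ^ w * g y ^ (1 - w) ≤ h (w • x + (1 - w) • y)) →
  (∫⁻ x, f x) ^ w * (∫⁻ x, g x) ^ (1 - w) ≤ ∫⁻ x, h x

end Pool.Agent.TH251.MP
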