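import Pool.Agent.TH251.MP.Pair

/-!
# The one-`u` form of (PAIR) for `K`, `-K`
-/

set_option autoImplicit false

open MeasureTheory Set Filter Topology
open scoped ENNReal Pointwise

namespace Pool.Agent.TH251.MP

open H801NS

noncomputable section

variable {m : ℕ} {A B : Set (Fin m → ℝ)}

/-- one ratio `q` -/
lemma pair_q (hST : S_STEP) (hPL : S_PLN) (hA : NB A) (hB : NB B) {M : ℝ} (hM : 0 < M)
    (h : ∀ c : ℝ, 0 < c → M * (1 + c) ^ m ≤ volume.real (hul A B c)) {q : ℝ} (hq : 0 < q)
    (hq1 : q < 1) :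
    Real.log (WW A B) ≤ q * Real.log (VV B) - q * Real.log (m.factorial * M) - m * q +
      Real.log (VV A) := by
  have hF : (0 : ℝ) < m.factorial := by positivity
  have hlq : Real.log q < 0 := Real.log_neg hq hq1
  -- for each `J`
  have hJ : ∀ J : ℕ, Real.log (WW A B) ≤ q * Real.log (VV B)
      - (q - q ^ (J + 1)) * Real.log (m.factorial * M)
      + m * (Real.log q * (q * (1 - q ^ (J + 1)) / (1 - q))) +
      (1 - q ^ (J + 1)) * Real.log (VV A) := by
    intro J
    have h1 := dpair hST hPL hA hB (fun j => q ^ (j + 1)) (fun j => pow_pos hq _)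
      (fun j => pow_lt_one₀ hq.le hq1 (Nat.succ_ne_zero j))
      (fun j => by
        show q ^ (j + 1 + 1) < q ^ (j + 1)
        rw [pow_succ]
        exact mul_lt_of_lt_one_right (pow_pos hq _) hq1) J
    beta_reduce at h1
    have h2 : ∀ j ∈ Finset.range J, (q ^ (j + 1) - q ^ (j + 1 + 1)) *
        (Real.log (m.factorial * M) - m * ((j + 1) * Real.log q)) ≤
        (q ^ (j + 1) - q ^ (j + 1 + 1)) * Real.log (VV (hul A B ((q ^ (j + 1))⁻¹ - 1))) := by
      intro j _
      have hqj : 0 < q ^ (j + 1) := pow_pos hq _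
      have hc : 0 < (q ^ (j + 1))⁻¹ - 1 := by
        have := (one_lt_inv₀ hqj).2 (pow_lt_one₀ hq.le hq1 (Nat.succ_ne_zero j))
        linarith
      refine mul_le_mul_of_nonneg_left ?_ ?_
      · have h3 := h _ hc
        rw [add_sub_cancel] at h3
        have h4 : m.factorial * M * ((q ^ (j + 1))⁻¹) ^ m ≤ VV (hul A B ((q ^ (j + 1))⁻¹ - 1)) := by
          unfold VV
          rw [mul_assoc]
          exact mul_le_mul_of_nonneg_left h3 hF.le
        have h5 := Real.log_le_log (by positivity) h4
        rw [Real.log_mul (by positivity) (by positivity), Real.log_pow, Real.log_inv,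
          Real.log_pow] at h5
        push_cast at h5
        linarith
      · rw [pow_succ q (j + 1)]
        nlinarith
    have h6 := Finset.sum_le_sum h2
    have h7 : ∀ J : ℕ, ∑ j ∈ Finset.range J, (q ^ (j + 1) - q ^ (j + 1 + 1)) *
        (Real.log (m.factorial * M) - m * ((j + 1) * Real.log q)) =
        (q - q ^ (J + 1)) * Real.log (m.factorial * M) + m * (q ^ (J + 1) * ((J + 1) * Real.log q))
        - m * (Real.log q * (q * (1 - q ^ (J + 1)) / (1 - q))) := by
      intro J
      have h1q : (1 - q) ≠ 0 := by linarith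
      induction J with
      | zero =>
        simp
        field_simp
        ring
      | succ J ih =>
        rw [Finset.sum_range_succ, ih]
        push_cast
        field_simp
        ring
    rw [h7] at h6
    have h8 : Real.log (1 - q ^ (J + 1)) ≤ 0 := by
      refine Real.log_nonpos ?_ ?_
      · have : q ^ (J + 1) < 1 := pow_lt_one₀ hq.le hq1 (Nat.succ_ne_zero J)
        linarith
      · have := pow_pos hq (J + 1)
        linarith
    have h9 : (1 - q ^ (J + 1)) * (m * Real.log (1 - q ^ (J + 1))) ≤ 0 := by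
      have : q ^ (J + 1) < 1 := pow_lt_one₀ hq.le hq1 (Nat.succ_ne_zero J)
      refine mul_nonpos_of_nonneg_of_nonpos (by linarith) ?_
      exact mul_nonpos_of_nonneg_of_nonpos (by positivity) h8
    rw [Real.log_pow] at h1
    push_cast at h1
    rw [mul_add] at h1
    simp only [pow_one] at h1
    linarith
  have ht : Tendsto (fun J : ℕ => q ^ (J + 1)) atTop (𝓝 0) :=
    (tendsto_pow_atTop_nhds_zero_of_lt_one hq.le hq1).comp (tendsto_add_atTop_nat 1)
  have hlim : Tendsto (fun J : ℕ => q * Real.log (VV B)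
      - (q - q ^ (J + 1)) * Real.log (m.factorial * M)
      + m * (Real.log q * (q * (1 - q ^ (J + 1)) / (1 - q))) +
      (1 - q ^ (J + 1)) * Real.log (VV A)) atTop (𝓝 (q * Real.log (VV B)
      - (q - 0) * Real.log (m.factorial * M)
      + m * (Real.log q * (q * (1 - 0) / (1 - q))) +
      (1 - 0) * Real.log (VV A))) := by
    refine Tendsto.add (Tendsto.add (Tendsto.sub tendsto_const_nhds ?_) ?_) ?_
    · exact (tendsto_const_nhds.sub ht).mul_const _
    · refine Tendsto.const_mul _ (Tendsto.const_mul _ (Tendsto.div_const ?_ _))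
      exact (tendsto_const_nhds.sub ht).const_mul _
    · exact (tendsto_const_nhds.sub ht).mul_const _
  have h10 := ge_of_tendsto' hlim hJ
  have h11 : Real.log q * (q * (1 - 0) / (1 - q)) ≤ -q := by
    have h12 : Real.log q ≤ q - 1 := Real.log_le_sub_one_of_pos hq
    have h13 : (0:ℝ) < 1 - q := by linarith
    have h14 : 0 ≤ q * (1 - 0) / (1 - q) := by
      rw [sub_zero]
      positivity
    calc Real.log q * (q * (1 - 0) / (1 - q)) ≤ (q - 1) * (q * (1 - 0) / (1 - q)) :=
          mul_le_mul_of_nonneg_right h12 h14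
      _ = -q := by
        field_simp
        ring
  have h15 : (m : ℝ) * (Real.log q * (q * (1 - 0) / (1 - q))) ≤ m * (-q) :=
    mul_le_mul_of_nonneg_left h11 (by positivity)
  linarith

/-- the inequality with the minimum of the volumes of the hulls -/
theorem pair_min (hST : S_STEP) (hPL : S_PLN) (hA : NB A) (hB : NB B) {M : ℝ} (hM : 0 < M)
    (h : ∀ c : ℝ, 0 < c → M * (1 + c) ^ m ≤ volume.real (hul A B c)) :
    WW A B * (m.factorial * M) ≤ Real.exp (-m) * (VV A * VV B) := by
  have hW := WW_pos hA hB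
  have hVA := VV_pos hA
  have hVB := VV_pos hB
  have hF : (0 : ℝ) < m.factorial := by positivity
  have h1 : Real.log (WW A B) ≤ 1 * Real.log (VV B) - 1 * Real.log (m.factorial * M) - m * 1 +
      Real.log (VV A) := by
    have hlim : Tendsto (fun q : ℝ => q * Real.log (VV B) - q * Real.log (m.factorial * M) - m * q +
      Real.log (VV A)) (𝓝[<] 1) (𝓝 (1 * Real.log (VV B) - 1 * Real.log (m.factorial * M) - m * 1 +
      Real.log (VV A))) := by
      have hc : Continuous (fun q : ℝ => q * Real.log (VV B) - q * Real.log (m.factorial * M)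
        - m * q + Real.log (VV A)) := by fun_prop
      exact hc.continuousAt.mono_left nhdsWithin_le_nhds
    refine ge_of_tendsto hlim ?_
    filter_upwards [Ioo_mem_nhdsLT (show (0:ℝ) < 1 by norm_num)] with q hq
    exact pair_q hST hPL hA hB hM h hq.1 hq.2
  have h2 : Real.log (WW A B * (m.factorial * M)) ≤
      Real.log (Real.exp (-m) * (VV A * VV B)) := by
    rw [Real.log_mul hW.ne' (by positivity), Real.log_mul (Real.exp_pos _).ne' (by positivity),
      Real.log_exp, Real.log_mul hVA.ne' hVB.ne']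
    linarith
  exact (Real.log_le_log_iff (by positivity) (by positivity)).1 h2

lemma nb_neg {K : Set (Fin m → ℝ)} (hK : NB K) : NB (-K) := by
  refine ⟨hK.comp.neg, hK.conv.neg, ?_⟩
  rw [mem_interior_iff_mem_nhds]
  have h : (-K) = (fun x : Fin m → ℝ => -x) ⁻¹' K := rfl
  rw [h]
  exact continuous_neg.continuousAt.preimage_mem_nhds (by
    simpa using nhds_of hK)

lemma vol_neg (K : Set (Fin m → ℝ)) : volume.real (-K) = volume.real K := by
  rw [Measure.real, Measure.measure_neg, Measure.real]

/-- `conv ((1-u) K ∪ -u K)` in terms of `hul` -/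
lemma hul_eq (K : Set (Fin m → ℝ)) {c : ℝ} (hc : 0 < c) :
    convexHull ℝ ((1 - c / (1 + c)) • K ∪ (-(c / (1 + c))) • K) =
      (1 + c)⁻¹ • hul (-K) K c := by
  unfold hul
  rw [← convexHull_smul, smul_set_union, smul_smul]
  have h1 : 1 - c / (1 + c) = (1 + c)⁻¹ := by
    field_simp
    ring
  have h2 : (-(c / (1 + c))) • K = ((1 + c)⁻¹ * c) • (-K) := by
    rw [smul_set_neg, neg_smul_set]
    congr 2
    field_simp
  rw [h1, h2]

lemma vol_smul (S : Set (Fin m → ℝ)) {r : ℝ} (hr : 0 < r) :
    volume.real (r • S) = r ^ m * volume.real S := by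
  rw [Measure.real, Measure.addHaar_smul, Module.finrank_pi, Fintype.card_fin, ENNReal.toReal_mul,
    ENNReal.toReal_ofReal (abs_nonneg _), abs_of_pos (pow_pos hr _), Measure.real]

/-- **one-`u` form**, with the constant `2` -/
theorem sin_min (hST : S_STEP) (hPL : S_PLN) {K : Set (Fin m → ℝ)} (hK : NB K) :
    ∃ u ∈ Ioo (0 : ℝ) 1, volume.real (K ∩ -K) *
      volume.real (convexHull ℝ ((1 - u) • K ∪ (-u) • K)) ≤
        2 * (2 / Real.exp 1) ^ m * volume.real K ^ 2 := by
  by_contra hcon
  push Not at hcon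
  have hK' := nb_neg hK
  have hI := nb_inter hK' hK
  have hvI : 0 < volume.real (K ∩ -K) := by
    rw [inter_comm]
    exact vol_pos hI
  have hvK := vol_pos hK
  set M : ℝ := 2 * (2 / Real.exp 1) ^ m * volume.real K ^ 2 / volume.real (K ∩ -K) with hM
  have he := Real.exp_pos 1
  have hM0 : 0 < M := by positivity
  have h1 : ∀ c : ℝ, 0 < c → M * (1 + c) ^ m ≤ volume.real (hul (-K) K c) := by
    intro c hc
    have h2 := hcon (c / (1 + c)) ⟨by positivity, by rw [div_lt_one (by positivity)]; linarith⟩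
    rw [hul_eq K hc, vol_smul _ (by positivity : (0:ℝ) < (1 + c)⁻¹)] at h2
    have h3 : M < (1 + c)⁻¹ ^ m * volume.real (hul (-K) K c) := by
      rw [hM, div_lt_iff₀ hvI]
      linarith
    have h4 : (0:ℝ) < (1 + c) ^ m := by positivity
    rw [inv_pow, ← div_eq_inv_mul, lt_div_iff₀ h4] at h3
    exact h3.le
  have h5 := pair_min hST hPL hK' hK hM0 h1
  have h6 := WW_ge hK' hK
  have hF : (0 : ℝ) < m.factorial := by positivity
  have h7 : ((2 : ℝ) ^ m)⁻¹ * VV (-K ∩ K) * (m.factorial * M) ≤ Real.exp (-m) * (VV (-K) * VV K) :=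
    (mul_le_mul_of_nonneg_right h6 (by positivity)).trans h5
  unfold VV at h7
  rw [vol_neg, inter_comm] at h7
  have h8 : Real.exp (-(m : ℝ)) = (Real.exp 1 ^ m)⁻¹ := by
    rw [Real.exp_neg, ← Real.exp_nat_mul, mul_one]
  rw [h8] at h7
  have h9 : ((2 : ℝ) ^ m)⁻¹ * (m.factorial * volume.real (K ∩ -K)) * (m.factorial * M) =
      2 * ((Real.exp 1 ^ m)⁻¹ * (m.factorial * volume.real K * (m.factorial * volume.real K))) := by
    rw [hM, div_pow]
    field_simp
  rw [h9] at h7
  have h10 : 0 < (Real.exp 1 ^ m)⁻¹ * (m.factorial * volume.real K * (m.factorial * volume.real K)) :=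
    by positivity
  linarith

end

end Pool.Agent.TH251.MP
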