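import Pool.Agent.TH251.MP.SIN

/-!
# The averaged form of (PAIR)
-/

set_option autoImplicit false

open MeasureTheory Set Filter Topology
open scoped ENNReal Pointwise

namespace Pool.Agent.TH251.MP

open H801NS

noncomputable section

variable {m : ℕ} {A B : Set (Fin m → ℝ)}

lemma smul_sub_smul (hA : NB A) {c c' : ℝ} (hc : 0 ≤ c) (hcc : c ≤ c') : c • A ⊆ c' • A := by
  rcases hc.eq_or_lt with rfl | h0
  · rintro _ ⟨x, hx, rfl⟩
    exact ⟨0, interior_subset hA.zero, by simp⟩
  · have h0' : 0 < c' := h0.trans_le hcc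
    rintro _ ⟨x, hx, rfl⟩
    refine ⟨(c / c') • x, ?_, ?_⟩
    · have := hA.conv hx (interior_subset hA.zero) (a := c / c') (b := 1 - c / c') (by positivity)
        (by rw [sub_nonneg, div_le_one h0']; exact hcc) (by ring)
      simpa using this
    · show c' • (c / c') • x = c • x
      rw [smul_smul]
      congr 1
      field_simp

lemma hul_mono (hA : NB A) {c c' : ℝ} (hc : 0 ≤ c) (hcc : c ≤ c') : hul A B c ⊆ hul A B c' :=
  convexHull_mono (union_subset_union_right _ (smul_sub_smul hA hc hcc))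

lemma hul_ratio (hB : NB B) {c c' : ℝ} (hc : 0 < c) (hcc : c ≤ c') :
    hul A B c' ⊆ (c' / c) • hul A B c := by
  unfold hul
  rw [← convexHull_smul, smul_set_union, smul_smul, div_mul_cancel₀ _ hc.ne']
  refine convexHull_mono (union_subset_union_left _ ?_)
  have h := smul_sub_smul hB zero_le_one ((one_le_div hc).2 hcc)
  rwa [one_smul] at h

/-- the function `F` -/
def FF (A B : Set (Fin m → ℝ)) (lam : ℝ) : ℝ := Real.log (VV (hul A B (lam⁻¹ - 1)))

lemma VV_mono {S T : Set (Fin m → ℝ)} (h : S ⊆ T) (hT : NB T) : VV S ≤ VV T := by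
  unfold VV
  exact mul_le_mul_of_nonneg_left (measureReal_mono h (hT.comp.measure_lt_top (μ := volume)).ne)
    (by positivity)

lemma inv_sub_pos {lam : ℝ} (h0 : 0 < lam) (h1 : lam < 1) : 0 < lam⁻¹ - 1 := by
  have := (one_lt_inv₀ h0).2 h1
  linarith

lemma FF_anti (hA : NB A) (hB : NB B) : AntitoneOn (FF A B) (Ioo 0 1) := by
  intro x hx y hy hxy
  unfold FF
  refine Real.log_le_log (VV_pos (hul_nb hA hB _)) (VV_mono ?_ (hul_nb hA hB _))
  refine hul_mono hA (inv_sub_pos hy.1 hy.2).le ?_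
  have := inv_anti₀ hx.1 hxy
  linarith

lemma FF_ratio (hA : NB A) (hB : NB B) {x y : ℝ} (hx : 0 < x) (hxy : x ≤ y) (hy : y < 1) :
    FF A B x ≤ FF A B y + m * Real.log ((x⁻¹ - 1) / (y⁻¹ - 1)) := by
  unfold FF
  have hy0 : 0 < y := hx.trans_le hxy
  have hcy := inv_sub_pos hy0 hy
  have hcx := inv_sub_pos hx (hxy.trans_lt hy)
  have hle : y⁻¹ - 1 ≤ x⁻¹ - 1 := by
    have := inv_anti₀ hx hxy
    linarith
  have h1 := hul_ratio (A := A) hB hcy hle
  have hpos : 0 < (x⁻¹ - 1) / (y⁻¹ - 1) := by positivity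
  have h2 := VV_pos (hul_nb hA hB (y⁻¹ - 1))
  have h3 : VV (hul A B (x⁻¹ - 1)) ≤
      ((x⁻¹ - 1) / (y⁻¹ - 1)) ^ m * VV (hul A B (y⁻¹ - 1)) := by
    have h4 : volume ((((x⁻¹ - 1) / (y⁻¹ - 1)) • hul A B (y⁻¹ - 1))) ≠ ⊤ :=
      ((hul_nb hA hB (y⁻¹ - 1)).comp.smul ((x⁻¹ - 1) / (y⁻¹ - 1))).measure_lt_top.ne
    have h5 := measureReal_mono h1 h4
    rw [vol_smul _ hpos] at h5
    unfold VV
    have h6 : (0 : ℝ) ≤ m.factorial := by positivity
    nlinarith [mul_le_mul_of_nonneg_left h5 h6]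
  have h7 := Real.log_le_log (VV_pos (hul_nb hA hB _)) h3
  rw [Real.log_mul (by positivity) h2.ne', Real.log_pow] at h7
  linarith

lemma FF_int (hA : NB A) (hB : NB B) {x y : ℝ} (hx : 0 < x) (hxy : x ≤ y) (hy : y < 1) :
    IntervalIntegrable (FF A B) volume x y := by
  refine AntitoneOn.intervalIntegrable ((FF_anti hA hB).mono ?_)
  rw [uIcc_of_le hxy]
  exact fun z hz => ⟨hx.trans_le hz.1, hz.2.trans_lt hy⟩

/-- the integral form on `[a, b]` -/
theorem pair_int (hST : S_STEP) (hPL : S_PLN) (hA : NB A) (hB : NB B) {a b : ℝ} (ha : 0 < a)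
    (hab : a < b) (hb : b < 1) :
    Real.log (WW A B) + ∫ x in a..b, FF A B x ≤ b * Real.log (VV B) + m * (a * Real.log a) +
      (1 - a) * (m * Real.log (1 - a) + Real.log (VV A)) := by
  have hb0 : 0 < b := ha.trans hab
  have ha1 : a < 1 := hab.trans hb
  have hca := inv_sub_pos ha ha1
  have hcb := inv_sub_pos hb0 hb
  set r : ℝ := (a⁻¹ - 1) / (b⁻¹ - 1) with hr
  have hr1 : 1 < r := by
    rw [hr, one_lt_div hcb]
    have := inv_strictAnti₀ ha hab
    linarith
  have hr0 : 0 < r := by linarith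
  have key : ∀ J : ℕ, 0 < J → Real.log (WW A B) + ∫ x in a..b, FF A B x ≤
      (b * Real.log (VV B) + m * (a * Real.log a) +
        (1 - a) * (m * Real.log (1 - a) + Real.log (VV A))) + m * (Real.log r / J) := by
    intro J hJ
    have hJ0 : (0 : ℝ) < J := by exact_mod_cast hJ
    set ρ : ℝ := r ^ ((J : ℝ)⁻¹) with hρ
    have hρ1 : 1 < ρ := Real.one_lt_rpow hr1 (by positivity)
    have hρ0 : 0 < ρ := by linarith
    set lam : ℕ → ℝ := fun j => (1 + (b⁻¹ - 1) * ρ ^ j)⁻¹ with hlam
    have hpos : ∀ j : ℕ, 0 < (b⁻¹ - 1) * ρ ^ j := fun j => mul_pos hcb (pow_pos hρ0 j)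
    have h0 : ∀ j, 0 < lam j := fun j => inv_pos.2 (by linarith [hpos j])
    have h1 : ∀ j, lam j < 1 := fun j => inv_lt_one_of_one_lt₀ (by linarith [hpos j])
    have hlt : ∀ j : ℕ, (b⁻¹ - 1) * ρ ^ j < (b⁻¹ - 1) * ρ ^ (j + 1) := fun j => by
      rw [pow_succ, ← mul_assoc]
      exact lt_mul_of_one_lt_right (hpos j) hρ1
    have hanti : ∀ j, lam (j + 1) < lam j := fun j =>
      inv_strictAnti₀ (by linarith [hpos j]) (by linarith [hlt j])
    have hl0 : lam 0 = b := by
      simp [hlam]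
    have hρJ : ρ ^ J = r := by
      rw [hρ, ← Real.rpow_natCast, ← Real.rpow_mul hr0.le, inv_mul_cancel₀ hJ0.ne', Real.rpow_one]
    have hlJ : lam J = a := by
      simp only [hlam]
      rw [hρJ, hr, mul_div_cancel₀ _ hcb.ne']
      simp
    have hinv : ∀ j, (lam j)⁻¹ - 1 = (b⁻¹ - 1) * ρ ^ j := fun j => by
      simp only [hlam, inv_inv]
      ring
    have hd := dpair hST hPL hA hB lam h0 h1 hanti J
    rw [hl0, hlJ] at hd
    have hlog : Real.log ρ = Real.log r / J := by
      rw [hρ, Real.log_rpow hr0]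
      field_simp
    -- the sum against the integral
    have hs : ∀ n : ℕ, ∫ x in (lam n)..(lam 0), FF A B x ≤
        ∑ j ∈ Finset.range n, (lam j - lam (j + 1)) * (FF A B (lam j) + m * Real.log ρ) := by
      intro n
      induction n with
      | zero => simp
      | succ n ih =>
        have hmono : ∀ n : ℕ, lam n ≤ lam 0 := fun n => antitone_nat_of_succ_le
          (fun j => (hanti j).le) (Nat.zero_le n)
        rw [Finset.sum_range_succ, ← intervalIntegral.integral_add_adjacent_intervals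
          (FF_int hA hB (h0 (n + 1)) (hanti n).le (h1 n)) (FF_int hA hB (h0 n) (hmono n) (h1 0)),
          add_comm]
        refine add_le_add ih ?_
        have hle : ∀ x ∈ Icc (lam (n + 1)) (lam n), FF A B x ≤ FF A B (lam n) + m * Real.log ρ := by
          intro x hx
          have hx0 : 0 < x := (h0 (n + 1)).trans_le hx.1
          have h2 := FF_anti hA hB ⟨h0 (n + 1), h1 (n + 1)⟩ ⟨hx0, hx.2.trans_lt (h1 n)⟩ hx.1
          have h3 := FF_ratio hA hB (h0 (n + 1)) (hanti n).le (h1 n)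
          rw [hinv, hinv] at h3
          have h4 : (b⁻¹ - 1) * ρ ^ (n + 1) / ((b⁻¹ - 1) * ρ ^ n) = ρ := by
            rw [pow_succ, ← mul_assoc, mul_div_cancel_left₀ _ (hpos n).ne']
          rw [h4] at h3
          exact h2.trans h3
        have h5 := intervalIntegral.integral_mono_on (hanti n).le
          (FF_int hA hB (h0 (n + 1)) (hanti n).le (h1 n))
          (intervalIntegrable_const (c := FF A B (lam n) + m * Real.log ρ)) hle
        refine h5.trans (le_of_eq ?_)
        rw [intervalIntegral.integral_const, smul_eq_mul]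
    have hsJ := hs J
    rw [hl0, hlJ] at hsJ
    have e1 : ∑ j ∈ Finset.range J, (lam j - lam (j + 1)) * (FF A B (lam j) + m * Real.log ρ) =
        ∑ j ∈ Finset.range J, (lam j - lam (j + 1)) * Real.log (VV (hul A B ((lam j)⁻¹ - 1))) +
        (b - a) * (m * Real.log ρ) := by
      simp_rw [mul_add]
      rw [Finset.sum_add_distrib, ← Finset.sum_mul, Finset.sum_range_sub', hl0, hlJ]
      rfl
    rw [e1] at hsJ
    have h6 : (b - a) * (m * Real.log ρ) ≤ 1 * (m * Real.log ρ) := by
      refine mul_le_mul_of_nonneg_right (by linarith) ?_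
      have := Real.log_pos hρ1
      positivity
    rw [hlog] at h6 hsJ
    linarith
  have hlim : Tendsto (fun J : ℕ => (b * Real.log (VV B) + m * (a * Real.log a) +
        (1 - a) * (m * Real.log (1 - a) + Real.log (VV A))) + m * (Real.log r / J)) atTop
        (𝓝 ((b * Real.log (VV B) + m * (a * Real.log a) +
        (1 - a) * (m * Real.log (1 - a) + Real.log (VV A))) + m * 0)) :=
    (tendsto_const_nhds.add ((tendsto_const_div_atTop_nhds_zero_nat _).const_mul _))
  rw [mul_zero, add_zero] at hlim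
  exact ge_of_tendsto hlim (by
    filter_upwards [eventually_gt_atTop 0] with J hJ
    exact key J hJ)

end

end Pool.Agent.TH251.MP
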