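import Pool.Agent.TH251.MP.Defs
import Pool.Agent.H801R3.NS.GAU

/-!
# The chain in helper807's proof of (PAIR), from (STEP) and (PLN)
-/

set_option autoImplicit false

open MeasureTheory Set
open scoped ENNReal Pointwise

namespace Pool.Agent.TH251.MP

open H801NS

noncomputable section

variable {m : ℕ} {A B B' : Set (Fin m → ℝ)}

/-- `m! |B|` -/
def VV (B : Set (Fin m → ℝ)) : ℝ := m.factorial * volume.real B

lemma vol_pos (hB : NB B) : 0 < volume.real B := by
  have h1 : volume B ≠ 0 := by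
    have h2 : (interior B).Nonempty := ⟨0, hB.zero⟩
    exact ((isOpen_interior.measure_pos volume h2).trans_le (measure_mono interior_subset)).ne'
  exact ENNReal.toReal_pos h1 hB.comp.measure_lt_top.ne

lemma VV_pos (hB : NB B) : 0 < VV B := by
  unfold VV
  have := vol_pos hB
  positivity

lemma gau (hB : NB B) : ∫⁻ x, ee (gauge B x) = ENNReal.ofReal (VV B) := by
  rw [t_GAU m B hB]
  unfold VV
  rw [ENNReal.ofReal_mul (by positivity), ENNReal.ofReal_natCast]
  congr 1
  rw [Measure.real, ENNReal.ofReal_toReal hB.comp.measure_lt_top.ne]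

lemma nhds_of (hB : NB B) : B ∈ nhds (0 : Fin m → ℝ) := mem_interior_iff_mem_nhds.1 hB.zero

lemma cont_gauge (hB : NB B) : Continuous (gauge B) := continuous_gauge hB.conv (nhds_of hB)

lemma ee_add (a b : ℝ) : ee (a + b) = ee a * ee b := by
  unfold ee
  rw [← ENNReal.ofReal_mul (Real.exp_pos _).le, ← Real.exp_add]
  congr 2
  ring

lemma ee_rpow (a p : ℝ) (hp : 0 ≤ p) : ee a ^ p = ee (p * a) := by
  unfold ee
  rw [ENNReal.ofReal_rpow_of_nonneg (Real.exp_pos _).le hp, ← Real.exp_mul]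
  congr 2
  ring

lemma ee_anti {a b : ℝ} (h : a ≤ b) : ee b ≤ ee a := by
  unfold ee
  exact ENNReal.ofReal_le_ofReal (Real.exp_le_exp.2 (by linarith))

lemma ee_meas (hB : NB B) : Measurable fun x => ee (gauge B x) := by
  unfold ee
  exact (Real.continuous_exp.comp (cont_gauge hB).neg).measurable.ennreal_ofReal

lemma gauge_add (hB : NB B) (x y : Fin m → ℝ) : gauge B (x + y) ≤ gauge B x + gauge B y :=
  gauge_add_le hB.conv (absorbent_nhds_zero (nhds_of hB)) x y

/-- scaling in the integral -/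
lemma lint_smul {f : (Fin m → ℝ) → ℝ≥0∞} (hf : Measurable f) {r : ℝ} (hr : 0 < r) :
    ∫⁻ x, f (r • x) = ENNReal.ofReal ((r ^ m)⁻¹) * ∫⁻ x, f x := by
  have h1 := Measure.map_addHaar_smul (volume : Measure (Fin m → ℝ)) hr.ne'
  have h2 : ∫⁻ x, f (r • x) = ∫⁻ y, f y ∂(Measure.map (fun x => r • x) volume) :=
    (lintegral_map hf (measurable_const_smul r)).symm
  rw [h2, h1, lintegral_smul_measure, Module.finrank_pi, Fintype.card_fin,
    abs_of_pos (by positivity), smul_eq_mul]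

/-- the invariant of the chain -/
def Inv (A : Set (Fin m → ℝ)) (W : ℝ≥0∞) (B : Set (Fin m → ℝ)) (lam L : ℝ) : Prop :=
  ∃ β : (Fin m → ℝ) → ℝ≥0∞, Measurable β ∧ PP B β ∧ W ≤ ∫⁻ x, ee (gauge A x) * β x ∧
    ∫⁻ x, β x ^ lam⁻¹ ≤ ENNReal.ofReal (Real.exp (L / lam))

lemma Inv.mono {W : ℝ≥0∞} {lam L L' : ℝ} (h : Inv A W B lam L) (hB' : NB B') (hsub : B' ⊆ B)
    (hlam : 0 < lam) (hL : L ≤ L') : Inv A W B' lam L' := by
  obtain ⟨β, h1, h2, h3, h4⟩ := h
  refine ⟨β, h1, fun x z => ?_, h3, h4.trans ?_⟩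
  · refine le_trans (mul_le_mul_right (ee_anti ?_) _) (h2 x z)
    exact gauge_mono (absorbent_nhds_zero (nhds_of hB')) hsub z
  · exact ENNReal.ofReal_le_ofReal (Real.exp_le_exp.2 (div_le_div_of_nonneg_right hL hlam.le))

/-- start of the chain -/
lemma Inv.start (hB : NB B) {lam : ℝ} (hlam : 0 < lam) :
    Inv A (∫⁻ x, ee (gauge A x) * ee (gauge B x)) B lam
      (lam * (m * Real.log lam + Real.log (VV B))) := by
  refine ⟨fun x => ee (gauge B x), ee_meas hB, fun x z => ?_, le_rfl, ?_⟩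
  · rw [← ee_add]
    exact ee_anti (gauge_add hB x z)
  · have h1 : ∀ x, ee (gauge B x) ^ lam⁻¹ = (fun y => ee (gauge B y)) (lam⁻¹ • x) := by
      intro x
      simp only
      rw [ee_rpow _ _ (by positivity), gauge_smul_of_nonneg (by positivity), smul_eq_mul]
    simp_rw [h1]
    rw [lint_smul (f := fun y => ee (gauge B y)) (ee_meas hB) (by positivity : 0 < lam⁻¹), gau hB,
      ← ENNReal.ofReal_mul (by positivity)]
    refine ENNReal.ofReal_le_ofReal (le_of_eq ?_)
    rw [mul_comm lam, mul_div_assoc, div_self hlam.ne', mul_one, Real.exp_add,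
      Real.exp_log (VV_pos hB), Real.exp_nat_mul, Real.exp_log hlam]
    simp

/-- Hölder at the end of the chain -/
lemma Inv.stop (hA : NB A) {W : ℝ≥0∞} {lam L : ℝ} (h : Inv A W B lam L) (h0 : 0 < lam)
    (h1 : lam < 1) :
    W ≤ ENNReal.ofReal (Real.exp
      ((1 - lam) * (m * Real.log (1 - lam) + Real.log (VV A)) + L)) := by
  obtain ⟨β, hm, hP, hW, hL⟩ := h
  have hmu : 0 < 1 - lam := by linarith
  have hpq : Real.HolderConjugate (1 - lam)⁻¹ lam⁻¹ := by
    rw [Real.holderConjugate_iff]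
    constructor
    · exact (one_lt_inv₀ hmu).2 (by linarith)
    · rw [inv_inv, inv_inv]
      ring
  have h2 := ENNReal.lintegral_mul_le_Lp_mul_Lq volume hpq (f := fun x => ee (gauge A x)) (g := β)
    (ee_meas hA).aemeasurable hm.aemeasurable
  refine hW.trans (h2.trans ?_)
  have h3 : ∀ x, ee (gauge A x) ^ (1 - lam)⁻¹ = (fun y => ee (gauge A y)) ((1 - lam)⁻¹ • x) := by
    intro x
    simp only
    rw [ee_rpow _ _ (by positivity), gauge_smul_of_nonneg (by positivity), smul_eq_mul]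
  simp_rw [h3]
  rw [lint_smul (f := fun y => ee (gauge A y)) (ee_meas hA) (by positivity : 0 < (1 - lam)⁻¹),
    gau hA, ← ENNReal.ofReal_mul (by positivity), one_div, inv_inv, one_div, inv_inv,
    ENNReal.ofReal_rpow_of_pos (mul_pos (by positivity) (VV_pos hA))]
  have h4 : (∫⁻ x, β x ^ lam⁻¹) ^ lam ≤ ENNReal.ofReal (Real.exp L) := by
    refine (ENNReal.rpow_le_rpow hL h0.le).trans ?_
    rw [ENNReal.ofReal_rpow_of_pos (Real.exp_pos _), ← Real.exp_mul, div_mul_cancel₀ _ h0.ne']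
  refine (mul_le_mul_right h4 _).trans ?_
  rw [← ENNReal.ofReal_mul (Real.rpow_nonneg (mul_pos (by positivity) (VV_pos hA)).le _)]
  refine ENNReal.ofReal_le_ofReal (le_of_eq ?_)
  rw [Real.exp_add]
  congr 1
  rw [Real.rpow_def_of_pos (mul_pos (by positivity) (VV_pos hA)), Real.log_mul (by positivity)
    (VV_pos hA).ne', Real.log_inv, Real.log_pow, Real.log_inv]
  congr 1
  ring

/-- Prékopa–Leindler: change of the exponent -/
lemma Inv.pl (hPL : S_PLN) (hB : NB B) {W : ℝ≥0∞} {lam rho L : ℝ} (h : Inv A W B lam L)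
    (hrho : 0 < rho) (hlt : rho < lam) :
    Inv A W B rho (L - m * (lam * Real.log lam) + m * (rho * Real.log rho)
      - (lam - rho) * Real.log (VV B)) := by
  obtain ⟨β, hm, hP, hW, hL⟩ := h
  have hlam : 0 < lam := hrho.trans hlt
  refine ⟨β, hm, hP, hW, ?_⟩
  set w : ℝ := rho / lam with hw
  have hw0 : 0 < w := by positivity
  have hw1 : w < 1 := (div_lt_one hlam).2 hlt
  have h1 := hPL m w hw0 hw1 (fun x => β (rho • x) ^ rho⁻¹) (fun x => ee (gauge B x))
    (fun x => β (lam • x) ^ lam⁻¹) ((hm.comp (measurable_const_smul rho)).pow_const _)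
    (ee_meas hB) ((hm.comp (measurable_const_smul lam)).pow_const _) (fun x y => by
      have h2 : lam • (w • x + (1 - w) • y) = rho • x + (lam - rho) • y := by
        rw [smul_add, smul_smul, smul_smul, hw]
        congr 2
        · field_simp
        · field_simp
      have h3 := hP (rho • x) ((lam - rho) • y)
      rw [h2]
      have h4 := ENNReal.rpow_le_rpow h3 (inv_pos.2 hlam).le
      refine le_trans (le_of_eq ?_) h4
      rw [ENNReal.mul_rpow_of_nonneg _ _ (inv_pos.2 hlam).le, ← ENNReal.rpow_mul,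
        ee_rpow _ _ (inv_pos.2 hlam).le, ee_rpow _ _ (by linarith),
        gauge_smul_of_nonneg (by linarith : (0 : ℝ) ≤ lam - rho), smul_eq_mul]
      congr 2
      · rw [hw]
        field_simp
      · rw [hw]
        field_simp)
  have e1 : ∫⁻ x, β (rho • x) ^ rho⁻¹ = ENNReal.ofReal ((rho ^ m)⁻¹) * ∫⁻ x, β x ^ rho⁻¹ :=
    lint_smul (f := fun x => β x ^ rho⁻¹) (hm.pow_const _) hrho
  have e2 : ∫⁻ x, β (lam • x) ^ lam⁻¹ = ENNReal.ofReal ((lam ^ m)⁻¹) * ∫⁻ x, β x ^ lam⁻¹ :=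
    lint_smul (f := fun x => β x ^ lam⁻¹) (hm.pow_const _) hlam
  rw [e1, e2, gau hB] at h1
  -- `h1 : (ρ^{-m} X)^w * V^{1-w} ≤ λ^{-m} Y`
  set X := ∫⁻ x, β x ^ rho⁻¹ with hX
  have h5 : (ENNReal.ofReal ((rho ^ m)⁻¹) * X) ^ w * ENNReal.ofReal (VV B) ^ (1 - w) ≤
      ENNReal.ofReal ((lam ^ m)⁻¹ * Real.exp (L / lam)) := by
    refine h1.trans ?_
    rw [ENNReal.ofReal_mul (by positivity)]
    exact mul_le_mul_right hL _
  have hV := VV_pos hB
  have hb0 : ENNReal.ofReal (VV B) ^ (1 - w) ≠ 0 := by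
    rw [ENNReal.ofReal_rpow_of_pos hV]
    exact (ENNReal.ofReal_pos.2 (Real.rpow_pos_of_pos hV _)).ne'
  have hbt : ENNReal.ofReal (VV B) ^ (1 - w) ≠ ⊤ := by
    rw [ENNReal.ofReal_rpow_of_pos hV]
    exact ENNReal.ofReal_ne_top
  have h6 := (ENNReal.le_div_iff_mul_le (Or.inl hb0) (Or.inl hbt)).2 h5
  rw [ENNReal.ofReal_rpow_of_pos hV, ← ENNReal.ofReal_div_of_pos (Real.rpow_pos_of_pos hV _)] at h6
  have h7 := ENNReal.rpow_le_rpow h6 (inv_pos.2 hw0).le
  rw [← ENNReal.rpow_mul, mul_inv_cancel₀ hw0.ne', ENNReal.rpow_one,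
    ENNReal.ofReal_rpow_of_pos (by
      have := Real.rpow_pos_of_pos hV (1 - w)
      positivity)] at h7
  have h8 : X = ENNReal.ofReal (rho ^ m) * (ENNReal.ofReal ((rho ^ m)⁻¹) * X) := by
    rw [← mul_assoc, ← ENNReal.ofReal_mul (by positivity), mul_inv_cancel₀ (by positivity),
      ENNReal.ofReal_one, one_mul]
  rw [h8]
  refine (mul_le_mul_right h7 _).trans ?_
  rw [← ENNReal.ofReal_mul (by positivity)]
  refine ENNReal.ofReal_le_ofReal (le_of_eq ?_)
  have hV1 := Real.rpow_pos_of_pos hV (1 - w)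
  have hD : 0 < (lam ^ m)⁻¹ * Real.exp (L / lam) / VV B ^ (1 - w) := by positivity
  rw [← Real.exp_log (show 0 < rho ^ m * ((lam ^ m)⁻¹ * Real.exp (L / lam) /
    VV B ^ (1 - w)) ^ w⁻¹ by positivity)]
  congr 1
  rw [Real.log_mul (by positivity) (by positivity), Real.log_pow, Real.log_rpow hD,
    Real.log_div (by positivity) hV1.ne', Real.log_mul (by positivity) (by positivity),
    Real.log_inv, Real.log_pow, Real.log_exp, Real.log_rpow hV, hw]
  field_simp
  ring

lemma isCompact_convexJoin {s t : Set (Fin m → ℝ)} (hs : IsCompact s) (ht : IsCompact t) :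
    IsCompact (convexJoin ℝ s t) := by
  have e : convexJoin ℝ s t = (fun p : ℝ × (Fin m → ℝ) × (Fin m → ℝ) =>
      (1 - p.1) • p.2.1 + p.1 • p.2.2) '' (Icc (0 : ℝ) 1 ×ˢ (s ×ˢ t)) := by
    ext z
    rw [mem_convexJoin]
    constructor
    · rintro ⟨a, ha, b, hb, hz⟩
      rw [segment_eq_image] at hz
      obtain ⟨u, hu, rfl⟩ := hz
      exact ⟨(u, a, b), ⟨hu, ha, hb⟩, rfl⟩
    · rintro ⟨⟨u, a, b⟩, ⟨hu, ha, hb⟩, rfl⟩
      refine ⟨a, ha, b, hb, ?_⟩
      rw [segment_eq_image]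
      exact ⟨u, hu, rfl⟩
  rw [e]
  exact (isCompact_Icc.prod (hs.prod ht)).image (by fun_prop)

lemma nb_hull (hB : NB B) {S : Set (Fin m → ℝ)} (hS : IsCompact (convexHull ℝ S)) :
    NB (convexHull ℝ (B ∪ S)) := by
  rcases S.eq_empty_or_nonempty with rfl | hne
  · rw [union_empty, hB.conv.convexHull_eq]
    exact hB
  · refine ⟨?_, convex_convexHull ℝ _, ?_⟩
    · rw [convexHull_union ⟨0, interior_subset hB.zero⟩ hne, hB.conv.convexHull_eq]
      exact isCompact_convexJoin hB.comp hS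
    · exact interior_mono (subset_union_left.trans (subset_convexHull ℝ _)) hB.zero

/-- a finite number of steps at the same scale -/
lemma Inv.stepF (hST : S_STEP) (hA : NB A) {W : ℝ≥0∞} {c L : ℝ} (hc : 0 < c)
    (V : Finset (Fin m → ℝ)) (hV : ∀ v ∈ V, v ∈ A) : ∀ B : Set (Fin m → ℝ), NB B →
    Inv A W B (1 + c)⁻¹ L → Inv A W (convexHull ℝ (B ∪ c • (V : Set (Fin m → ℝ)))) (1 + c)⁻¹ L := by
  classical
  induction V using Finset.induction_on with
  | empty =>
    intro B hB h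
    rw [Finset.coe_empty, smul_set_empty, union_empty, hB.conv.convexHull_eq]
    exact h
  | insert v V hvV ih =>
    intro B hB h
    obtain ⟨β, h1, h2, h3, h4⟩ := h
    obtain ⟨β', g1, g2, g3, g4⟩ := hST m A B hA hB v c (hV v (Finset.mem_insert_self _ _)) hc β h1 h2
    have hB' : NB (convexHull ℝ (B ∪ {c • v})) :=
      nb_hull hB (by rw [convexHull_singleton]; exact isCompact_singleton)
    have hI : Inv A W (convexHull ℝ (B ∪ {c • v})) (1 + c)⁻¹ L := by
      refine ⟨β', g1, g2, h3.trans g4, ?_⟩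
      rw [inv_inv] at h4 ⊢
      exact g3.trans h4
    have h5 := ih (fun u hu => hV u (Finset.mem_insert_of_mem hu)) _ hB' hI
    have e : convexHull ℝ (B ∪ c • ((insert v V : Finset (Fin m → ℝ)) : Set (Fin m → ℝ))) =
        convexHull ℝ (convexHull ℝ (B ∪ {c • v}) ∪ c • (V : Set (Fin m → ℝ))) := by
      rw [convexHull_convexHull_union_left, Finset.coe_insert, smul_set_insert, union_assoc,
        singleton_union]
    rw [e]
    exact h5

/-- `conv (B ∪ c A)` -/
def hul (A B : Set (Fin m → ℝ)) (c : ℝ) : Set (Fin m → ℝ) := convexHull ℝ (B ∪ c • A)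

lemma isCompact_hull_smul {S : Set (Fin m → ℝ)} (hS : IsCompact (convexHull ℝ S)) (c : ℝ) :
    IsCompact (convexHull ℝ (c • S)) := by
  rw [convexHull_smul]
  exact hS.smul c

lemma nb_hul (hB : NB B) {S : Set (Fin m → ℝ)} (hS : IsCompact (convexHull ℝ S)) (c : ℝ) :
    NB (hul S B c) := nb_hull hB (isCompact_hull_smul hS c)

/-- the chain for a finite set `V` of points of `A` -/
theorem chain (hST : S_STEP) (hPL : S_PLN) (hA : NB A) (hB : NB B)
    (V : Finset (Fin m → ℝ)) (hV : ∀ v ∈ V, v ∈ A) (lam : ℕ → ℝ) (h0 : ∀ j, 0 < lam j)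
    (h1 : ∀ j, lam j < 1) (hanti : ∀ j, lam (j + 1) < lam j) (J : ℕ) :
    Inv A (∫⁻ x, ee (gauge A x) * ee (gauge B x)) (hul (V : Set (Fin m → ℝ)) B ((lam J)⁻¹ - 1))
      (lam J) (lam 0 * Real.log (VV B) + m * (lam J * Real.log (lam J)) -
        ∑ j ∈ Finset.range J, (lam j - lam (j + 1)) *
          Real.log (VV (hul (V : Set (Fin m → ℝ)) B ((lam j)⁻¹ - 1)))) := by
  have hVc : IsCompact (convexHull ℝ (V : Set (Fin m → ℝ))) := V.finite_toSet.isCompact_convexHull ℝ
  have hc : ∀ j, 0 < (lam j)⁻¹ - 1 := fun j => by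
    have := (one_lt_inv₀ (h0 j)).2 (h1 j)
    linarith
  have hl : ∀ j, (1 + ((lam j)⁻¹ - 1))⁻¹ = lam j := fun j => by
    rw [add_sub_cancel, inv_inv]
  induction J with
  | zero =>
    have := Inv.start (A := A) hB (h0 0)
    rw [Finset.sum_range_zero, sub_zero]
    have h2 := Inv.stepF hST hA (hc 0) V hV B hB (by rw [hl]; exact this)
    rw [hl] at h2
    unfold hul
    convert h2 using 1
    ring
  | succ J ih =>
    have h2 := Inv.pl hPL (nb_hul hB hVc _) ih (h0 (J + 1)) (hanti J)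
    have h3 := Inv.stepF hST hA (hc (J + 1)) V hV _ (nb_hul hB hVc _) (by rw [hl]; exact h2)
    rw [hl] at h3
    refine Inv.mono h3 (nb_hul hB hVc _) ?_ (h0 _) (le_of_eq ?_)
    · refine convexHull_mono (union_subset_union_left _ ?_)
      exact subset_union_left.trans (subset_convexHull ℝ _)
    · rw [Finset.sum_range_succ]
      ring

end

end Pool.Agent.TH251.MP
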