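import Pool.Agent.TH251.MP.Chain

/-!
# (DPAIR) and the inequality `W |conv((1-f)B ∪ fA)| ≤ e^{-m} m! |A| |B|`
-/

set_option autoImplicit false

open MeasureTheory Set
open scoped ENNReal Pointwise

namespace Pool.Agent.TH251.MP

open H801NS

noncomputable section

variable {m : ℕ} {A B B' : Set (Fin m → ℝ)}

/-- `∫ exp (- gauge A - gauge B) = m! |{gauge A + gauge B ≤ 1}|` -/
def WW (A B : Set (Fin m → ℝ)) : ℝ := (∫⁻ x, ee (gauge A x) * ee (gauge B x)).toReal

lemma ee_le_one {r : ℝ} (hr : 0 ≤ r) : ee r ≤ 1 := by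
  unfold ee
  rw [← ENNReal.ofReal_one]
  exact ENNReal.ofReal_le_ofReal (Real.exp_le_one_iff.2 (by linarith))

lemma WW_ne_top (hB : NB B) : ∫⁻ x, ee (gauge A x) * ee (gauge B x) ≠ ⊤ := by
  have h : ∫⁻ x, ee (gauge A x) * ee (gauge B x) ≤ ∫⁻ x, ee (gauge B x) := by
    refine lintegral_mono fun x => ?_
    calc ee (gauge A x) * ee (gauge B x) ≤ 1 * ee (gauge B x) :=
          mul_le_mul_left (ee_le_one (gauge_nonneg _)) _
      _ = _ := one_mul _
  refine ne_top_of_le_ne_top ?_ h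
  rw [gau hB]
  exact ENNReal.ofReal_ne_top

lemma ofReal_WW (hB : NB B) :
    ENNReal.ofReal (WW A B) = ∫⁻ x, ee (gauge A x) * ee (gauge B x) :=
  ENNReal.ofReal_toReal (WW_ne_top hB)

lemma nb_inter (hA : NB A) (hB : NB B) : NB (A ∩ B) := by
  refine ⟨hA.comp.inter hB.comp, hA.conv.inter hB.conv, ?_⟩
  rw [interior_inter]
  exact ⟨hA.zero, hB.zero⟩

lemma WW_ge (hA : NB A) (hB : NB B) : ((2 : ℝ) ^ m)⁻¹ * VV (A ∩ B) ≤ WW A B := by
  have hAB := nb_inter hA hB
  have h1 : ENNReal.ofReal (((2 : ℝ) ^ m)⁻¹ * VV (A ∩ B)) ≤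
      ∫⁻ x, ee (gauge A x) * ee (gauge B x) := by
    rw [ENNReal.ofReal_mul (by positivity), ← gau hAB,
      ← lint_smul (f := fun x => ee (gauge (A ∩ B) x)) (ee_meas hAB) (by norm_num : (0 : ℝ) < 2)]
    refine lintegral_mono fun x => ?_
    simp only
    rw [← ee_add]
    refine ee_anti ?_
    rw [gauge_smul_of_nonneg (by norm_num), smul_eq_mul]
    have h2 := gauge_mono (absorbent_nhds_zero (nhds_of hAB)) (inter_subset_left : A ∩ B ⊆ A) x
    have h3 := gauge_mono (absorbent_nhds_zero (nhds_of hAB)) (inter_subset_right : A ∩ B ⊆ B) x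
    linarith
  rw [← ofReal_WW hB] at h1
  exact (ENNReal.ofReal_le_ofReal_iff ENNReal.toReal_nonneg).1 h1

lemma WW_pos (hA : NB A) (hB : NB B) : 0 < WW A B := by
  have h1 := WW_ge hA hB
  have h2 := VV_pos (nb_inter hA hB)
  refine lt_of_lt_of_le ?_ h1
  positivity

/-- (DPAIR) for a finite set of points of `A` -/
theorem dpairV (hST : S_STEP) (hPL : S_PLN) (hA : NB A) (hB : NB B)
    (V : Finset (Fin m → ℝ)) (hV : ∀ v ∈ V, v ∈ A) (lam : ℕ → ℝ) (h0 : ∀ j, 0 < lam j)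
    (h1 : ∀ j, lam j < 1) (hanti : ∀ j, lam (j + 1) < lam j) (J : ℕ) :
    Real.log (WW A B) ≤ (1 - lam J) * (m * Real.log (1 - lam J) + Real.log (VV A)) +
      (lam 0 * Real.log (VV B) + m * (lam J * Real.log (lam J)) -
        ∑ j ∈ Finset.range J, (lam j - lam (j + 1)) *
          Real.log (VV (hul (V : Set (Fin m → ℝ)) B ((lam j)⁻¹ - 1)))) := by
  have h := Inv.stop hA (chain hST hPL hA hB V hV lam h0 h1 hanti J) (h0 J) (h1 J)
  rw [← ofReal_WW hB, ENNReal.ofReal_le_ofReal_iff (Real.exp_pos _).le] at h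
  have h2 := Real.log_le_log (WW_pos hA hB) h
  rwa [Real.log_exp] at h2

lemma exists_finset (hA : NB A) {ε : ℝ} (hε : 0 < ε) (hε1 : ε < 1) :
    ∃ V : Finset (Fin m → ℝ), (∀ v ∈ V, v ∈ A) ∧
      (1 - ε) • A ⊆ convexHull ℝ (V : Set (Fin m → ℝ)) := by
  obtain ⟨ρ, hρ, hball⟩ : ∃ ρ : ℝ, 0 < ρ ∧ Metric.closedBall (0 : Fin m → ℝ) ρ ⊆ A := by
    obtain ⟨ρ, hρ, h⟩ := Metric.mem_nhds_iff.1 (nhds_of hA)
    exact ⟨ρ / 2, by linarith, (Metric.closedBall_subset_ball (by linarith)).trans h⟩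
  obtain ⟨F, hFK, hFf, hcov⟩ := hA.comp.finite_cover_balls (mul_pos hε hρ)
  refine ⟨hFf.toFinset, fun v hv => hFK (hFf.mem_toFinset.1 hv), ?_⟩
  rw [hFf.coe_toFinset]
  have hCcl : IsClosed (convexHull ℝ F) := (hFf.isCompact_convexHull ℝ).isClosed
  rintro _ ⟨d, hd, rfl⟩
  by_contra hcon
  obtain ⟨f, u, hfC, hfz⟩ := geometric_hahn_banach_closed_point (convex_convexHull ℝ _) hCcl hcon
  obtain ⟨x, hx, hmax⟩ := hA.comp.exists_isMaxOn ⟨d, hd⟩ f.continuous.continuousOn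
  have hmax' : ∀ y ∈ A, f y ≤ f x := fun y hy => hmax hy
  obtain ⟨x', hx', hxx⟩ : ∃ x' ∈ F, ‖x - x'‖ ≤ ε * ρ := by
    obtain ⟨x', hx', h⟩ := Set.mem_iUnion₂.1 (hcov hx)
    exact ⟨x', hx', by rw [← dist_eq_norm]; exact (Metric.mem_ball.1 h).le⟩
  have h1 := hfC _ (subset_convexHull ℝ _ hx')
  have h2 : ε⁻¹ • (x - x') ∈ A := by
    apply hball
    rw [mem_closedBall_zero_iff, norm_smul, Real.norm_of_nonneg (inv_pos.2 hε).le,
      inv_mul_le_iff₀ hε]
    exact hxx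
  have h3 := hmax' _ h2
  rw [map_smul, smul_eq_mul, inv_mul_le_iff₀ hε, map_sub] at h3
  have h4 := hmax' d hd
  have h5 : f ((fun x => (1 - ε) • x) d) = (1 - ε) * f d := by
    simp only [map_smul, smul_eq_mul]
  rw [h5] at hfz
  have h7 : (1 - ε) * f d ≤ (1 - ε) * f x := mul_le_mul_of_nonneg_left h4 (by linarith)
  linarith

lemma hul_nb (hA : NB A) (hB : NB B) (c : ℝ) : NB (hul A B c) :=
  nb_hul hB (by rw [hA.conv.convexHull_eq]; exact hA.comp) c

lemma VV_hul_ge (hA : NB A) (hB : NB B) {ε : ℝ} (hε : 0 < ε) (hε1 : ε < 1)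
    {V : Finset (Fin m → ℝ)} (h : (1 - ε) • A ⊆ convexHull ℝ (V : Set (Fin m → ℝ))) (c : ℝ) :
    (1 - ε) ^ m * VV (hul A B c) ≤ VV (hul (V : Set (Fin m → ℝ)) B c) := by
  have hV : NB (hul (V : Set (Fin m → ℝ)) B c) := nb_hul hB (V.finite_toSet.isCompact_convexHull ℝ) c
  have h1 : (1 - ε) • hul A B c ⊆ hul (V : Set (Fin m → ℝ)) B c := by
    unfold hul
    rw [← convexHull_smul, smul_set_union]
    refine convexHull_min (union_subset ?_ ?_) (convex_convexHull ℝ _)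
    · refine subset_trans ?_ (subset_union_left.trans (subset_convexHull ℝ _))
      rintro _ ⟨x, hx, rfl⟩
      have := hB.conv hx (interior_subset hB.zero) (by linarith : (0:ℝ) ≤ 1 - ε) hε.le (by ring)
      simpa using this
    · rw [smul_comm]
      refine (smul_set_mono h).trans ?_
      rw [← convexHull_smul]
      exact convexHull_mono subset_union_right
  have h2 : volume.real ((1 - ε) • hul A B c) = (1 - ε) ^ m * volume.real (hul A B c) := by
    rw [Measure.real, Measure.addHaar_smul, Module.finrank_pi, Fintype.card_fin, ENNReal.toReal_mul,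
      ENNReal.toReal_ofReal (abs_nonneg _), abs_of_pos (pow_pos (by linarith) _), Measure.real]
  have h3 := measureReal_mono h1 (hV.comp.measure_lt_top (μ := volume)).ne
  rw [h2] at h3
  unfold VV
  have h4 : (0 : ℝ) ≤ m.factorial := by positivity
  nlinarith [mul_le_mul_of_nonneg_left h3 h4]

/-- **(DPAIR)** of helper807 -/
theorem dpair (hST : S_STEP) (hPL : S_PLN) (hA : NB A) (hB : NB B)
    (lam : ℕ → ℝ) (h0 : ∀ j, 0 < lam j)
    (h1 : ∀ j, lam j < 1) (hanti : ∀ j, lam (j + 1) < lam j) (J : ℕ) :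
    Real.log (WW A B) ≤ (1 - lam J) * (m * Real.log (1 - lam J) + Real.log (VV A)) +
      (lam 0 * Real.log (VV B) + m * (lam J * Real.log (lam J)) -
        ∑ j ∈ Finset.range J, (lam j - lam (j + 1)) * Real.log (VV (hul A B ((lam j)⁻¹ - 1)))) := by
  refine le_of_forall_pos_le_add fun δ hδ => ?_
  -- `ε = 1 - exp (-δ/(m+1))`
  set ε : ℝ := 1 - Real.exp (-(δ / (m + 1))) with hεdef
  have hδ' : 0 < δ / (m + 1) := by positivity
  have hε : 0 < ε := by
    have : Real.exp (-(δ / (m + 1))) < 1 := Real.exp_lt_one_iff.2 (by linarith)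
    linarith
  have hε1 : ε < 1 := by
    have := Real.exp_pos (-(δ / (m + 1)))
    linarith
  have hlog : Real.log (1 - ε) = -(δ / (m + 1)) := by
    rw [hεdef, sub_sub_cancel, Real.log_exp]
  obtain ⟨V, hV, hVA⟩ := exists_finset hA hε hε1
  refine (dpairV hST hPL hA hB V hV lam h0 h1 hanti J).trans ?_
  have hsum : ∑ j ∈ Finset.range J, (lam j - lam (j + 1)) *
      Real.log (VV (hul A B ((lam j)⁻¹ - 1))) - δ ≤
      ∑ j ∈ Finset.range J, (lam j - lam (j + 1)) *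
          Real.log (VV (hul (V : Set (Fin m → ℝ)) B ((lam j)⁻¹ - 1))) := by
    have h2 : ∀ j ∈ Finset.range J, (lam j - lam (j + 1)) *
        Real.log (VV (hul A B ((lam j)⁻¹ - 1))) - (lam j - lam (j + 1)) * δ ≤
        (lam j - lam (j + 1)) * Real.log (VV (hul (V : Set (Fin m → ℝ)) B ((lam j)⁻¹ - 1))) := by
      intro j _
      have h3 := VV_hul_ge hA hB hε hε1 hVA ((lam j)⁻¹ - 1)
      have h4 := VV_pos (hul_nb hA hB ((lam j)⁻¹ - 1))
      have h5 : (0:ℝ) < (1 - ε) ^ m := pow_pos (by linarith) _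
      have h6 := Real.log_le_log (mul_pos h5 h4) h3
      rw [Real.log_mul h5.ne' h4.ne', Real.log_pow, hlog] at h6
      have h7 : (m : ℝ) * (δ / (m + 1)) ≤ δ := by
        rw [mul_div_assoc', div_le_iff₀ (by positivity)]
        nlinarith
      have h8 := hanti j
      rw [← mul_sub]
      refine mul_le_mul_of_nonneg_left ?_ (by linarith)
      linarith
    have h9 := Finset.sum_le_sum h2
    rw [Finset.sum_sub_distrib, ← Finset.sum_mul, Finset.sum_range_sub'] at h9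
    have h10 : (lam 0 - lam J) * δ ≤ 1 * δ :=
      mul_le_mul_of_nonneg_right (by linarith [h0 J, h1 0]) hδ.le
    linarith
  linarith

end

end Pool.Agent.TH251.MP
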